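import Pool.Agent.MP_13e7a1_an.H79.Forms

/-!
First term of the density, locality and orientation.
-/

open scoped ContDiff Topology Matrix
open Set Metric Filter Pool.Agent.MP_13e7a1_an.H82 Pool.Agent.MP_13e7a1_an.H71 Complex

noncomputable section

namespace Pool.Agent.MP_13e7a1_an.H79

variable {J : E → E →L[ℝ] E}

lemma wedge_pp (A : E →L[ℝ] E) (P : E →L[ℝ] ℝ) :
    wedge (proj A 1 (form1 P)) (proj A 0 (form1 P)) =
      f2 0 ((-1 / 2 : ℝ) • wd (cov P) (cj (mat A) (cov P))) := by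
  rw [proj1_form1, proj0_form1, wedge_f1]
  congr 1
  · ext i j
    simp only [wd, Matrix.sub_apply, Matrix.of_apply, Pi.smul_apply, smul_eq_mul,
      Matrix.zero_apply]
    ring
  · ext i j
    simp only [wd, Matrix.add_apply, Matrix.of_apply, Pi.smul_apply, smul_eq_mul,
      Matrix.smul_apply]
    ring

lemma fderiv_app {a : E → E →L[ℝ] ℝ} {x : E} (ha : DifferentiableAt ℝ a x) (X Y : E) :
    fderiv ℝ (fun y => a y Y) x X = fderiv ℝ a x X Y := by
  rw [(ha.hasFDerivAt.clm_apply (hasFDerivAt_const Y x)).fderiv]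
  simp

lemma extd_delBar (hJ : ContDiff ℝ ∞ J) {φ : E → ℝ} (hφ : ContDiff ℝ ∞ φ) (x : E) :
    extd (delBar J 0 (form0 φ)) x = f2 0 ((-1 / 2 : ℝ) • ddc J φ x) := by
  have hd := diff_fderiv hφ x
  have hJd : DifferentiableAt ℝ J x := hJ.differentiable (by simp) x
  have key : ∀ X Y : E, fderiv ℝ (fun y => delBar J 0 (form0 φ) y ![Y]) x X =
      ((fderiv ℝ (fderiv ℝ φ) x X Y / 2 : ℝ) : ℂ) + I * (((fderiv ℝ (fderiv ℝ φ) x X (J x Y)
        + fderiv ℝ φ x (fderiv ℝ J x X Y)) / 2 : ℝ) : ℂ) := by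
    intro X Y
    have h1 : DifferentiableAt ℝ (fun y => fderiv ℝ φ y Y) x :=
      hd.clm_apply (differentiableAt_const _)
    have h2 : DifferentiableAt ℝ (fun y => fderiv ℝ φ y (J y Y)) x :=
      hd.clm_apply (hJd.clm_apply (differentiableAt_const _))
    have h : (fun y => delBar J 0 (form0 φ) y ![Y]) = fun y =>
        (((1 / 2 : ℝ) * fderiv ℝ φ y Y : ℝ) : ℂ)
          + I * (((1 / 2 : ℝ) * fderiv ℝ φ y (J y Y) : ℝ) : ℂ) := by
      funext y
      simp only [delBar, extd_form0 hφ, proj10, form1, Matrix.cons_val_zero]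
      push_cast
      ring
    rw [h, fderiv_pair (h1.const_mul _) (h2.const_mul _), fderiv_const_mul h1, fderiv_const_mul h2]
    simp only [_root_.smul_apply, smul_eq_mul, hasFDerivAt_app hJ hd, fderiv_app hd]
    push_cast
    ring
  funext v
  rw [extd1, key, key, symm2 hφ x (v 1) (v 0)]
  simp only [f2, bil_smul, bil_ddc hJ hφ]
  simp only [bil, Matrix.zero_mulVec, dotProduct_zero]
  push_cast
  ring

lemma proj1_f2 (A : E →L[ℝ] E) (β γ : Mat) :
    proj A 1 (f2 β γ) = f2 (plus (mat A) β) (plus (mat A) γ) := by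
  funext v
  simp only [proj21, f2, Matrix.cons_val_zero, Matrix.cons_val_one, bil_plus]
  push_cast
  ring

lemma extd_congr {k : ℕ} {α β : E → Form k} {x : E} (h : α =ᶠ[𝓝 x] β) :
    extd α x = extd β x := by
  funext v
  unfold extd
  refine Finset.sum_congr rfl fun j _ => ?_
  have h1 : (fun y => α y (j.removeNth v)) =ᶠ[𝓝 x] fun y => β y (j.removeNth v) :=
    h.mono fun y hy => by simp only [hy]
  rw [h1.fderiv_eq]

lemma kahler_eq (A : E →L[ℝ] E) : kahler A = f2 ((1 / 2 : ℝ) • om (mat A)) 0 := by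
  funext v
  have h : ∀ X Y : E, bil (om (mat A)) X Y = ∑ k : Fin 4, (A X k * Y k - X k * A Y k) := by
    intro X Y
    rw [om, bil_sub, bil_transpose]
    simp only [bil, mat_mulVec, dotProduct, Fin.sum_univ_four]
    ring
  simp only [kahler, wedge_pp, Finset.sum_apply, Pi.smul_apply, f2, bil_smul, bil_wd, ev_cj,
    ev_cov, h, smul_eq_mul, Fin.sum_univ_four, Pi.add_apply]
  simp only [bil, Matrix.zero_mulVec, dotProduct_zero, PiLp.proj_apply]
  push_cast
  ring_nf
  simp only [I_sq]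
  ring

lemma isInv_s {A : E →L[ℝ] E} (sq : ∀ Z, A (A Z) = -Z) (p : V) :
    IsInv (mat A) (wd p (cj (mat A) p)) := by
  refine isInv_of (wd_anti _ _) fun X Y => ?_
  simp only [bil_wd, ev_cj, sq, ev_neg]
  ring

theorem b1 (hB : SLinB) : SB1 where
  t1 J hJ sq φ hφ P x := by
    have ha : (ddc J φ x)ᵀ = -ddc J φ x := d1_anti _ _
    have h0 : (0 : Mat)ᵀ = -0 := by simp
    rw [del, extd_delBar hJ hφ, wedge_pp, proj1_f2,
      wedge_f2 (plus_anti _ h0) (plus_anti _ (smul_anti _ ha)) h0 (smul_anti _ (wd_anti _ _))]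
    have h1 : plus (mat (J x)) ((-1 / 2 : ℝ) • ddc J φ x) =
        (-1 / 2 : ℝ) • plus (mat (J x)) (ddc J φ x) := by
      refine bil_ext fun X Y => ?_
      simp only [bil_plus, bil_smul]
      ring
    have h2 := hB.orth _ (mat_sq (sq x)) _ _ (isInv_s (sq x) (cov P)) (isAnti_minus (sq x) ha)
    have h3 := pf_add_right (wd (cov P) (cj (mat (J x)) (cov P))) (plus (mat (J x)) (ddc J φ x))
      (minus (mat (J x)) (ddc J φ x))
    rw [← plus_add_minus, h2] at h3
    rw [h1, pf_smul_left, pf_smul_right, pf_comm (plus _ (ddc J φ x)), h3]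
    simp only [pf, Matrix.zero_apply]
    ring
  congr J J' x h φ P Q := by
    have h0 : J x = J' x := h.eq_of_nhds
    have h1 : ∀ {k : ℕ} (p : ℕ) (α : Form k),
        extd (fun y => proj (J y) p α) x = extd (fun y => proj (J' y) p α) x :=
      fun p α => extd_congr (h.mono fun y hy => by simp only [hy])
    have h2 : extd (delBar J 0 (form0 φ)) x = extd (delBar J' 0 (form0 φ)) x :=
      extd_congr (h.mono fun y hy => by simp only [delBar, hy])
    simp only [maDensity, theta, thetaBar, h1, del, h2]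
    simp only [delBar, h0]
  kah A _ := by
    have ha : (om (mat A))ᵀ = -om (mat A) := by simp [om]
    have h0 : (0 : Mat)ᵀ = -0 := by simp
    rw [kahler_eq, wedge_f2 (smul_anti _ ha) h0 (smul_anti _ ha) h0, pf_smul_left, pf_smul_right]
    simp only [pf, Matrix.zero_apply]
    ring

end Pool.Agent.MP_13e7a1_an.H79
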