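import Pool.Agent.MP_13e7a1_an.H79.Forms

/-!
Explicit form of `θ` and `θ̄` on `1`-forms; second, third and fifth terms of the density.
-/

open scoped ContDiff Topology Matrix
open Set Metric Filter Pool.Agent.MP_13e7a1_an.H82 Pool.Agent.MP_13e7a1_an.H71 Complex

noncomputable section

namespace Pool.Agent.MP_13e7a1_an.H79

variable {J : E → E →L[ℝ] E}

lemma fderiv_ev (hJ : ContDiff ℝ ∞ J) (p : V) (x X Y : E) :
    fderiv ℝ (fun y => ev p (J y Y)) x X = ev p (fderiv ℝ J x X Y) := by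
  simpa [lin_apply] using
    hasFDerivAt_app hJ (a := fun _ => lin p) (x := x) (differentiableAt_const _) X Y

lemma diff_ev (hJ : ContDiff ℝ ∞ J) (p : V) (x Y : E) :
    DifferentiableAt ℝ (fun y => ev p (J y Y)) x := by
  simp only [← lin_apply]
  exact (lin p).differentiableAt.comp x
    ((hJ.differentiable (by simp) x).clm_apply (differentiableAt_const _))

lemma fderiv_f1 (hJ : ContDiff ℝ ∞ J) (p q : V) (a b : ℂ) (x X Y : E) :
    fderiv ℝ (fun y => a + b * f1 p q ![J y Y]) x X = b * f1 p q ![fderiv ℝ J x X Y] := by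
  have h1 := diff_ev hJ p x Y
  have h2 := diff_ev hJ q x Y
  have h3 : DifferentiableAt ℝ (fun y => ((ev p (J y Y) : ℝ) : ℂ) + I * (ev q (J y Y) : ℝ)) x :=
    (ofRealCLM.differentiableAt.comp x h1).add
      ((ofRealCLM.differentiableAt.comp x h2).const_mul I)
  simp only [f1, Matrix.cons_val_zero]
  rw [fderiv_const_add, fderiv_const_mul h3, _root_.smul_apply, fderiv_pair h1 h2, fderiv_ev hJ,
    fderiv_ev hJ, smul_eq_mul]

lemma extd_proj0 (hJ : ContDiff ℝ ∞ J) (p q : V) (x : E) (v : Fin 2 → E) :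
    extd (fun y => proj (J y) 0 (f1 p q)) x v = I / 2 *
      (f1 p q ![fderiv ℝ J x (v 0) (v 1)] - f1 p q ![fderiv ℝ J x (v 1) (v 0)]) := by
  have h : ∀ Y : E, (fun y => proj (J y) 0 (f1 p q) ![Y]) =
      fun y => f1 p q ![Y] / 2 + I / 2 * f1 p q ![J y Y] := by
    intro Y
    funext y
    simp only [proj10, Matrix.cons_val_zero]
    ring
  rw [extd1, h, h, fderiv_f1 hJ, fderiv_f1 hJ]
  ring

lemma extd_proj1 (hJ : ContDiff ℝ ∞ J) (p q : V) (x : E) (v : Fin 2 → E) :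
    extd (fun y => proj (J y) 1 (f1 p q)) x v = -I / 2 *
      (f1 p q ![fderiv ℝ J x (v 0) (v 1)] - f1 p q ![fderiv ℝ J x (v 1) (v 0)]) := by
  have h : ∀ Y : E, (fun y => proj (J y) 1 (f1 p q) ![Y]) =
      fun y => f1 p q ![Y] / 2 + -I / 2 * f1 p q ![J y Y] := by
    intro Y
    funext y
    simp only [proj11, Matrix.cons_val_zero]
    ring
  rw [extd1, h, h, fderiv_f1 hJ, fderiv_f1 hJ]
  ring

lemma theta_eq (hJ : ContDiff ℝ ∞ J) (sq : ∀ y Z, J y (J y Z) = -Z) (P : E →L[ℝ] ℝ) (x : E) :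
    theta J 0 (proj (J x) 0 (form1 P)) x =
      f2 ((1 / 4 : ℝ) • ((mat (J x))ᵀ * nu J x (cov P))) ((1 / 4 : ℝ) • nu J x (cov P)) := by
  funext v
  rw [theta, proj0_form1, Pi.neg_apply, proj22]
  simp only [extd_proj0 hJ, f1, f2, Matrix.cons_val_zero, Matrix.cons_val_one, ev_smul, ev_cj,
    ev_cov, bil_smul, bil_tmul, bil_nu hJ, anticomm hJ sq, sq, map_neg, _root_.neg_apply]
  apply Complex.ext <;> simp <;> ring

lemma thetaBar_eq (hJ : ContDiff ℝ ∞ J) (sq : ∀ y Z, J y (J y Z) = -Z) (P : E →L[ℝ] ℝ)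
    (x : E) :
    thetaBar J 0 (proj (J x) 1 (form1 P)) x =
      f2 ((1 / 4 : ℝ) • ((mat (J x))ᵀ * nu J x (cov P))) ((-1 / 4 : ℝ) • nu J x (cov P)) := by
  funext v
  rw [thetaBar, proj1_form1, Pi.neg_apply, proj20]
  simp only [zero_add, extd_proj1 hJ, f1, f2, Matrix.cons_val_zero, Matrix.cons_val_one, ev_smul,
    ev_cj, ev_cov, bil_smul, bil_tmul, bil_nu hJ, anticomm hJ sq, sq, map_neg, _root_.neg_apply]
  apply Complex.ext <;> simp <;> ring

lemma isAnti_nu (sq : ∀ y Z, J y (J y Z) = -Z) (x : E) (p : V) :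
    IsAnti (mat (J x)) (nu J x p) := isAnti_minus (sq x) (d1_anti _ _)

lemma rot_anti {A : E →L[ℝ] E} (sq : ∀ Z, A (A Z) = -Z) {β : Mat} (h : IsAnti (mat A) β) :
    ((mat A)ᵀ * β)ᵀ = -((mat A)ᵀ * β) := by
  refine anti_of_bil fun X Y => ?_
  have h1 : bil β (A (A Y)) (A X) = -bil β (A Y) X := by
    rw [← bil_tmul, ← bil_mul, h.2, bil_neg]
  rw [sq, bil_neg_left, bil_swap h.1 (A X) Y] at h1
  rw [bil_tmul, bil_tmul]
  linarith

theorem b2 (hB : SLinB) : SB2 where
  t23 J hJ sq φ hφ P x := by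
    have hn := isAnti_nu sq x (cov P)
    have hr := rot_anti (sq x) hn
    have hq : cov (fderiv ℝ φ x) = grad φ x := rfl
    have hd : del J 0 (form0 φ) x = proj (J x) 1 (extd (form0 φ) x) := rfl
    rw [add_re, thetaBar_eq hJ sq, theta_eq hJ sq, hd, delBar, extd_form0 hφ,
      proj1_form1, proj1_form1, proj0_form1, proj0_form1,
      wedge_112 _ _ _ _ (smul_anti _ hr) (smul_anti _ hn.1),
      wedge_121 _ _ _ _ (smul_anti _ hr) (smul_anti _ hn.1), hq]
    set p := cov P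
    set q := grad φ x
    have hb : IsAnti (mat (J x)) (wd q (cj (mat (J x)) p) - wd p (cj (mat (J x)) q)) := by
      refine isAnti_of (anti_of_bil fun X Y => ?_) fun X Y => ?_
      · simp only [bil_sub, bil_wd]
        ring
      · simp only [bil_sub, bil_wd, ev_cj, sq, ev_neg]
        ring
    have ha : (mat (J x))ᵀ * (wd q (cj (mat (J x)) p) - wd p (cj (mat (J x)) q)) =
        wd q p - wd (cj (mat (J x)) q) (cj (mat (J x)) p) := by
      refine bil_ext fun X Y => ?_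
      simp only [bil_tmul, bil_sub, bil_wd, ev_cj, sq, ev_neg]
      ring
    have h := hB.rot _ (mat_sq (sq x)) _ _ hb hn
    rw [ha] at h
    generalize (mat (J x))ᵀ * nu J x p = n' at h ⊢
    simp only [pf, wd, Matrix.sub_apply, Matrix.add_apply, Matrix.of_apply, Matrix.smul_apply,
      Pi.smul_apply, smul_eq_mul] at h ⊢
    linear_combination (1 / 8 : ℝ) * h
  t5 J hJ sq P x := by
    have hn := isAnti_nu sq x (cov P)
    have hr := rot_anti (sq x) hn
    rw [thetaBar_eq hJ sq, theta_eq hJ sq, wedge_f2 (smul_anti _ hr) (smul_anti _ hn.1)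
      (smul_anti _ hr) (smul_anti _ hn.1), pf_smul_left, pf_smul_right, pf_smul_left,
      pf_smul_right, hB.rot _ (mat_sq (sq x)) _ _ hn hn]
    ring

end Pool.Agent.MP_13e7a1_an.H79
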