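import Pool.Agent.MP_13e7a1_an.H82.Spec

/-!
Matrices as bilinear forms on `E`, and the explicit form of `dd^c f` and `ν(p)`.
-/

open scoped ContDiff Topology Matrix
open Set Metric Filter Pool.Agent.MP_13e7a1_an.H82

noncomputable section

namespace Pool.Agent.MP_13e7a1_an.H79

lemma bas_apply (i j : Fin 4) : bas i j = if j = i then 1 else 0 := by
  simp [bas, PiLp.single_apply]

lemma eq_sum (Z : E) : Z = ∑ i, Z i • bas i := by
  ext j
  simp [bas_apply, Finset.sum_apply]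

lemma clm_sum {F : Type*} [NormedAddCommGroup F] [NormedSpace ℝ F] (A : E →L[ℝ] F) (Z : E) :
    A Z = ∑ i, Z i • A (bas i) := by
  conv_lhs => rw [eq_sum Z]
  simp [map_sum]

lemma mat_mulVec (A : E →L[ℝ] E) (Z : E) : mat A *ᵥ Z.ofLp = (A Z).ofLp := by
  ext i
  rw [clm_sum A Z]
  simp [mat, Matrix.mulVec, dotProduct, mul_comm]

lemma mat_sq {A : E →L[ℝ] E} (h : ∀ Z, A (A Z) = -Z) : mat A * mat A = -1 := by
  ext i j
  have h1 : (mat A * mat A) i j = (mat A *ᵥ (A (bas j)).ofLp) i := by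
    simp [Matrix.mul_apply, Matrix.mulVec, dotProduct, mat]
  rw [h1, mat_mulVec, h]
  simp [bas_apply, Matrix.one_apply]

/-- A row vector as a function on `E`. -/
def ev (p : V) (Z : E) : ℝ := p ⬝ᵥ Z.ofLp

/-- A matrix as a bilinear function on `E`. -/
def bil (β : Mat) (X Y : E) : ℝ := X.ofLp ⬝ᵥ (β *ᵥ Y.ofLp)

lemma ev_bas (p : V) (i : Fin 4) : ev p (bas i) = p i := by
  simp [ev, dotProduct, bas_apply]

lemma ev_cov (P : E →L[ℝ] ℝ) (Z : E) : ev (cov P) Z = P Z := by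
  rw [clm_sum P Z]
  simp [ev, cov, dotProduct, mul_comm]

lemma ev_neg (p : V) (Z : E) : ev p (-Z) = -ev p Z := by simp [ev]

lemma ev_cj (A : E →L[ℝ] E) (p : V) (Z : E) : ev (cj (mat A) p) Z = -ev p (A Z) := by
  simp only [ev, cj, neg_dotProduct, ← mat_mulVec, Matrix.dotProduct_mulVec]

lemma cj_apply (A : E →L[ℝ] E) (p : V) (j : Fin 4) : cj (mat A) p j = -ev p (A (bas j)) := by
  rw [← ev_cj, ev_bas]

lemma bil_bas (β : Mat) (i j : Fin 4) : bil β (bas i) (bas j) = β i j := by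
  simp [bil, dotProduct, Matrix.mulVec, bas_apply]

lemma bil_ext {β γ : Mat} (h : ∀ X Y, bil β X Y = bil γ X Y) : β = γ := by
  ext i j
  rw [← bil_bas β i j, h, bil_bas]

lemma bil_add (β γ : Mat) (X Y : E) : bil (β + γ) X Y = bil β X Y + bil γ X Y := by
  simp [bil, Matrix.add_mulVec]

lemma bil_sub (β γ : Mat) (X Y : E) : bil (β - γ) X Y = bil β X Y - bil γ X Y := by
  simp [bil, Matrix.sub_mulVec]

lemma bil_neg (β : Mat) (X Y : E) : bil (-β) X Y = -bil β X Y := by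
  simp [bil, Matrix.neg_mulVec]

lemma bil_smul (a : ℝ) (β : Mat) (X Y : E) : bil (a • β) X Y = a * bil β X Y := by
  simp [bil, Matrix.smul_mulVec]

lemma bil_neg_left (β : Mat) (X Y : E) : bil β (-X) Y = -bil β X Y := by simp [bil]

lemma bil_neg_right (β : Mat) (X Y : E) : bil β X (-Y) = -bil β X Y := by
  simp [bil, Matrix.mulVec_neg]

lemma bil_transpose (β : Mat) (X Y : E) : bil βᵀ X Y = bil β Y X := by
  simp only [bil, dotProduct, Matrix.mulVec, Matrix.transpose_apply, Fin.sum_univ_four]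
  ring

lemma bil_mul (β : Mat) (A : E →L[ℝ] E) (X Y : E) : bil (β * mat A) X Y = bil β X (A Y) := by
  simp only [bil, ← mat_mulVec, Matrix.mulVec_mulVec]

lemma bil_tmul (β : Mat) (A : E →L[ℝ] E) (X Y : E) :
    bil ((mat A)ᵀ * β) X Y = bil β (A X) Y := by
  rw [← bil_transpose, Matrix.transpose_mul, Matrix.transpose_transpose, bil_mul, bil_transpose]

lemma bil_plus (β : Mat) (A : E →L[ℝ] E) (X Y : E) :
    bil (plus (mat A) β) X Y = (bil β X Y + bil β (A X) (A Y)) / 2 := by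
  rw [plus, bil_smul, bil_add, bil_mul, bil_tmul]
  ring

lemma bil_minus (β : Mat) (A : E →L[ℝ] E) (X Y : E) :
    bil (minus (mat A) β) X Y = (bil β X Y - bil β (A X) (A Y)) / 2 := by
  rw [minus, bil_smul, bil_sub, bil_mul, bil_tmul]
  ring

lemma bil_wd (p q : V) (X Y : E) : bil (wd p q) X Y = ev p X * ev q Y - ev p Y * ev q X := by
  simp only [bil, wd, ev, dotProduct, Matrix.mulVec, Matrix.of_apply, Fin.sum_univ_four]
  ring

/-- A matrix whose entries are the values of a bilinear map. -/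
lemma bil_of {β : Mat} (B : E →L[ℝ] E →L[ℝ] ℝ) (h : ∀ i j, β i j = B (bas i) (bas j)) (X Y : E) :
    bil β X Y = B X Y := by
  rw [clm_sum B X]
  simp only [_root_.sum_apply, _root_.smul_apply]
  simp only [bil, dotProduct, Matrix.mulVec, h, smul_eq_mul]
  refine Finset.sum_congr rfl fun i _ => ?_
  rw [clm_sum (B (bas i)) Y]
  simp [mul_comm]

/-- A row vector as a continuous linear form. -/
def lin (p : V) : E →L[ℝ] ℝ := ∑ i, p i • EuclideanSpace.proj i

lemma lin_apply (p : V) (Z : E) : lin p Z = ev p Z := by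
  simp [lin, ev, dotProduct]

lemma ev_grad (f : E → ℝ) (x Z : E) : ev (grad f x) Z = fderiv ℝ f x Z := ev_cov _ Z

variable {J : E → E →L[ℝ] E}

lemma anticomm (hJ : ContDiff ℝ ∞ J) (sq : ∀ y Z, J y (J y Z) = -Z) (x X Y : E) :
    J x (fderiv ℝ J x X Y) = -fderiv ℝ J x X (J x Y) := by
  have hd : HasFDerivAt J (fderiv ℝ J x) x := (hJ.differentiable (by simp) x).hasFDerivAt
  have h1 := hd.clm_apply (hd.clm_apply (hasFDerivAt_const Y x))
  have h2 : HasFDerivAt (fun y => J y (J y Y)) (0 : E →L[ℝ] E) x := by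
    simp only [sq]
    exact hasFDerivAt_const _ _
  have h3 := congrArg (fun L : E →L[ℝ] E => L X) (h1.unique h2)
  simp only [_root_.add_apply, ContinuousLinearMap.comp_apply,
    ContinuousLinearMap.flip_apply, _root_.zero_apply, map_zero, zero_add,
    ContinuousLinearMap.comp_zero] at h3
  exact eq_neg_of_add_eq_zero_left h3

/-- Derivative of `y ↦ a y (J y Y)`. -/
lemma hasFDerivAt_app {F : Type*} [NormedAddCommGroup F] [NormedSpace ℝ F]
    (hJ : ContDiff ℝ ∞ J) {a : E → E →L[ℝ] F} {x : E} (ha : DifferentiableAt ℝ a x) (X Y : E) :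
    fderiv ℝ (fun y => a y (J y Y)) x X =
      fderiv ℝ a x X (J x Y) + a x (fderiv ℝ J x X Y) := by
  have hd : HasFDerivAt J (fderiv ℝ J x) x := (hJ.differentiable (by simp) x).hasFDerivAt
  rw [(ha.hasFDerivAt.clm_apply (hd.clm_apply (hasFDerivAt_const Y x))).fderiv]
  simp [add_comm]

lemma bil_d1 (hJ : ContDiff ℝ ∞ J) {a : E → E →L[ℝ] ℝ} {x : E} (ha : DifferentiableAt ℝ a x)
    {p : E → V} (hp : ∀ y Z, ev (p y) Z = a y Z) (X Y : E) :
    bil (d1 (fun y => cj (mat (J y)) (p y)) x) X Y =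
      -fderiv ℝ a x X (J x Y) - a x (fderiv ℝ J x X Y)
        + fderiv ℝ a x Y (J x X) + a x (fderiv ℝ J x Y X) := by
  let B : E →L[ℝ] E →L[ℝ] ℝ := ((fderiv ℝ a x).flip.comp (J x)).flip +
    (ContinuousLinearMap.compL ℝ E E ℝ (a x)).comp (fderiv ℝ J x)
  have hB : ∀ X Y, B X Y = fderiv ℝ a x X (J x Y) + a x (fderiv ℝ J x X Y) := fun X Y => by
    simp [B]
  have key : ∀ i j, pd i (fun y => cj (mat (J y)) (p y) j) x = -B (bas i) (bas j) := by
    intro i j
    simp only [pd, cj_apply, hp, hB]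
    rw [fderiv_fun_neg, _root_.neg_apply, hasFDerivAt_app hJ ha]
  rw [bil_of (B.flip - B)]
  · simp only [_root_.sub_apply, ContinuousLinearMap.flip_apply, hB]
    ring
  · intro i j
    simp only [d1, Matrix.of_apply, key, _root_.sub_apply,
      ContinuousLinearMap.flip_apply]
    ring

lemma two_le_infty : (2 : WithTop ℕ∞) ≤ ∞ := WithTop.coe_le_coe.2 le_top

lemma diff_fderiv {f : E → ℝ} (hf : ContDiff ℝ ∞ f) (x : E) :
    DifferentiableAt ℝ (fderiv ℝ f) x :=
  ((hf.fderiv_right (m := ∞) (by simp)).differentiable (by simp)) x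

lemma symm2 {f : E → ℝ} (hf : ContDiff ℝ ∞ f) (x X Y : E) :
    fderiv ℝ (fderiv ℝ f) x X Y = fderiv ℝ (fderiv ℝ f) x Y X :=
  (hf.contDiffAt.isSymmSndFDerivAt (by simpa using two_le_infty)) X Y

lemma bil_ddc (hJ : ContDiff ℝ ∞ J) {f : E → ℝ} (hf : ContDiff ℝ ∞ f) (x X Y : E) :
    bil (ddc J f x) X Y =
      -fderiv ℝ (fderiv ℝ f) x X (J x Y) - fderiv ℝ f x (fderiv ℝ J x X Y)
        + fderiv ℝ (fderiv ℝ f) x Y (J x X) + fderiv ℝ f x (fderiv ℝ J x Y X) :=
  bil_d1 hJ (diff_fderiv hf x) (fun y Z => ev_grad f y Z) X Y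

lemma bil_nu (hJ : ContDiff ℝ ∞ J) (x : E) (p : V) (X Y : E) :
    bil (nu J x p) X Y =
      (-ev p (fderiv ℝ J x X Y) + ev p (fderiv ℝ J x Y X)
        + ev p (fderiv ℝ J x (J x X) (J x Y)) - ev p (fderiv ℝ J x (J x Y) (J x X))) / 2 := by
  have h := fun X Y => bil_d1 hJ (a := fun _ => lin p) (x := x) (differentiableAt_const _)
    (p := fun _ => p) (fun _ Z => (lin_apply p Z).symm) X Y
  rw [nu, bil_minus, h, h]
  simp only [fderiv_fun_const, Pi.zero_apply, _root_.zero_apply, lin_apply]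
  ring

end Pool.Agent.MP_13e7a1_an.H79
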