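import Pool.Agent.MP_13e7a1_an.H79.Pt
import Pool.Agent.MP_13e7a1_an.H71.Unfold

/-!
Complex forms of degree one and two given by real and imaginary parts.
-/

open scoped ContDiff Topology Matrix
open Set Metric Filter Pool.Agent.MP_13e7a1_an.H82 Pool.Agent.MP_13e7a1_an.H71 Complex

noncomputable section

namespace Pool.Agent.MP_13e7a1_an.H79

/-- The `1`-form `p + i q`. -/
def f1 (p q : V) : Form 1 := fun v => (ev p (v 0) : ℂ) + I * (ev q (v 0) : ℂ)

/-- The `2`-form `β + i γ`. -/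
def f2 (β γ : Mat) : Form 2 := fun v => (bil β (v 0) (v 1) : ℂ) + I * (bil γ (v 0) (v 1) : ℂ)

lemma anti_entry {β : Mat} (h : βᵀ = -β) (i j : Fin 4) : β j i = -β i j :=
  congrFun (congrFun h i) j

lemma wedge_f2 {β γ β' γ' : Mat} (h1 : βᵀ = -β) (h2 : γᵀ = -γ) (h3 : β'ᵀ = -β')
    (h4 : γ'ᵀ = -γ') :
    (wedge (f2 β γ) (f2 β' γ') bas).re = pf β β' - pf γ γ' := by
  rw [wedge22_sum, sum_perm4 (fun a b c d => f2 β γ ![bas a, bas b] * f2 β' γ' ![bas c, bas d])]
  simp only [f2, Matrix.cons_val_zero, Matrix.cons_val_one, bil_bas, pf,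
    anti_entry h1 0 1, anti_entry h1 0 2, anti_entry h1 0 3, anti_entry h1 1 2, anti_entry h1 1 3,
    anti_entry h1 2 3,
    anti_entry h2 0 1, anti_entry h2 0 2, anti_entry h2 0 3, anti_entry h2 1 2, anti_entry h2 1 3,
    anti_entry h2 2 3,
    anti_entry h3 0 1, anti_entry h3 0 2, anti_entry h3 0 3, anti_entry h3 1 2, anti_entry h3 1 3,
    anti_entry h3 2 3,
    anti_entry h4 0 1, anti_entry h4 0 2, anti_entry h4 0 3, anti_entry h4 1 2, anti_entry h4 1 3,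
    anti_entry h4 2 3]
  simp only [div_ofNat_re, add_re, sub_re, mul_re, mul_im, add_im, ofReal_re, ofReal_im, I_re, I_im]
  ring

lemma wedge_f1 (p q p' q' : V) :
    wedge (f1 p q) (f1 p' q') = f2 (wd p p' - wd q q') (wd p q' + wd q p') := by
  funext v
  rw [wedge11]
  simp only [f1, f2, Matrix.cons_val_zero, bil_sub, bil_add, bil_wd]
  push_cast
  linear_combination ((ev q (v 0) : ℂ) * ev q' (v 1) - (ev q (v 1) : ℂ) * ev q' (v 0)) * I_sq

lemma wedge_112 (p q p' q' : V) {β γ : Mat} (h1 : βᵀ = -β) (h2 : γᵀ = -γ) :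
    (wedge (f1 p q) (wedge (f1 p' q') (f2 β γ)) bas).re =
      pf (wd p p' - wd q q') β - pf (wd p q' + wd q p') γ := by
  rw [wedge13_sum, sum_perm4 (fun a b c d => f1 p q ![bas a] *
    wedge (f1 p' q') (f2 β γ) ![bas b, bas c, bas d])]
  simp only [wedge12, f1, f2, Matrix.cons_val_zero, Matrix.cons_val_one, Matrix.cons_val,
    bil_bas, ev_bas, pf, wd, Matrix.sub_apply, Matrix.add_apply, Matrix.of_apply,
    anti_entry h1 0 1, anti_entry h1 0 2, anti_entry h1 0 3, anti_entry h1 1 2, anti_entry h1 1 3,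
    anti_entry h1 2 3,
    anti_entry h2 0 1, anti_entry h2 0 2, anti_entry h2 0 3, anti_entry h2 1 2, anti_entry h2 1 3,
    anti_entry h2 2 3]
  simp only [div_ofNat_re, div_ofNat_im, add_re, sub_re, mul_re, mul_im, add_im, sub_im,
    ofReal_re, ofReal_im, I_re, I_im]
  ring

lemma wedge_121 (p q p' q' : V) {β γ : Mat} (h1 : βᵀ = -β) (h2 : γᵀ = -γ) :
    (wedge (f1 p q) (wedge (f2 β γ) (f1 p' q')) bas).re =
      pf (wd p p' - wd q q') β - pf (wd p q' + wd q p') γ := by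
  rw [wedge13_sum, sum_perm4 (fun a b c d => f1 p q ![bas a] *
    wedge (f2 β γ) (f1 p' q') ![bas b, bas c, bas d])]
  simp only [wedge21, f1, f2, Matrix.cons_val_zero, Matrix.cons_val_one, Matrix.cons_val,
    bil_bas, ev_bas, pf, wd, Matrix.sub_apply, Matrix.add_apply, Matrix.of_apply,
    anti_entry h1 0 1, anti_entry h1 0 2, anti_entry h1 0 3, anti_entry h1 1 2, anti_entry h1 1 3,
    anti_entry h1 2 3,
    anti_entry h2 0 1, anti_entry h2 0 2, anti_entry h2 0 3, anti_entry h2 1 2, anti_entry h2 1 3,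
    anti_entry h2 2 3]
  simp only [div_ofNat_re, div_ofNat_im, add_re, sub_re, mul_re, mul_im, add_im, sub_im,
    ofReal_re, ofReal_im, I_re, I_im]
  ring

lemma ev_smul (a : ℝ) (p : V) (Z : E) : ev (a • p) Z = a * ev p Z := by simp [ev]

lemma proj1_form1 (A : E →L[ℝ] E) (P : E →L[ℝ] ℝ) :
    proj A 1 (form1 P) = f1 ((1 / 2 : ℝ) • cov P) ((1 / 2 : ℝ) • cj (mat A) (cov P)) := by
  funext v
  simp only [proj11, form1, f1, ev_smul, ev_cj, ev_cov, Matrix.cons_val_zero]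
  push_cast
  ring

lemma proj0_form1 (A : E →L[ℝ] E) (P : E →L[ℝ] ℝ) :
    proj A 0 (form1 P) = f1 ((1 / 2 : ℝ) • cov P) ((-1 / 2 : ℝ) • cj (mat A) (cov P)) := by
  funext v
  simp only [proj10, form1, f1, ev_smul, ev_cj, ev_cov, Matrix.cons_val_zero]
  push_cast
  ring

lemma fderiv_ofReal {g : E → ℝ} {x : E} (hg : DifferentiableAt ℝ g x) (X : E) :
    fderiv ℝ (fun y => (g y : ℂ)) x X = (fderiv ℝ g x X : ℂ) := by
  have h := (ofRealCLM.hasFDerivAt.comp x hg.hasFDerivAt).fderiv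
  exact congrArg (fun L : E →L[ℝ] ℂ => L X) h

lemma extd_form0 {φ : E → ℝ} (hφ : ContDiff ℝ ∞ φ) (y : E) :
    extd (form0 φ) y = form1 (fderiv ℝ φ y) := by
  funext v
  rw [extd0]
  exact fderiv_ofReal (hφ.differentiable (by simp) y) _

lemma fderiv_pair {g h : E → ℝ} {x : E} (hg : DifferentiableAt ℝ g x)
    (hh : DifferentiableAt ℝ h x) (X : E) :
    fderiv ℝ (fun y => (g y : ℂ) + I * (h y : ℂ)) x X =
      (fderiv ℝ g x X : ℂ) + I * (fderiv ℝ h x X : ℂ) := by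
  have h1 := ofRealCLM.hasFDerivAt.comp x hg.hasFDerivAt
  have h2 := (ofRealCLM.hasFDerivAt.comp x hh.hasFDerivAt).const_mul I
  have h3 : HasFDerivAt (fun y => (g y : ℂ) + I * (h y : ℂ)) _ x := h1.add h2
  rw [h3.fderiv]
  simp

lemma wd_anti (p q : V) : (wd p q)ᵀ = -wd p q := by
  ext i j
  simp [wd]

lemma d1_anti (a : E → V) (x : E) : (d1 a x)ᵀ = -d1 a x := by
  ext i j
  simp [d1]

lemma anti_of_bil {β : Mat} (h : ∀ X Y, bil β Y X = -bil β X Y) : βᵀ = -β :=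
  bil_ext fun X Y => by rw [bil_transpose, bil_neg, h]

lemma bil_swap {β : Mat} (h : βᵀ = -β) (X Y : E) : bil β Y X = -bil β X Y := by
  rw [← bil_transpose, h, bil_neg]

lemma isAnti_of {A : E →L[ℝ] E} {β : Mat} (h : βᵀ = -β)
    (h' : ∀ X Y, bil β (A X) (A Y) = -bil β X Y) : IsAnti (mat A) β :=
  ⟨h, bil_ext fun X Y => by rw [bil_mul, bil_tmul, bil_neg, h']⟩

lemma isInv_of {A : E →L[ℝ] E} {β : Mat} (h : βᵀ = -β)
    (h' : ∀ X Y, bil β (A X) (A Y) = bil β X Y) : IsInv (mat A) β :=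
  ⟨h, bil_ext fun X Y => by rw [bil_mul, bil_tmul, h']⟩

lemma isAnti_minus {A : E →L[ℝ] E} (sq : ∀ Z, A (A Z) = -Z) {β : Mat} (h : βᵀ = -β) :
    IsAnti (mat A) (minus (mat A) β) := by
  refine isAnti_of (anti_of_bil fun X Y => ?_) fun X Y => ?_
  · rw [bil_minus, bil_minus, bil_swap h X Y, bil_swap h (A X) (A Y)]
    ring
  · rw [bil_minus, bil_minus, sq, sq, bil_neg_left, bil_neg_right]
    ring

lemma plus_anti (A : E →L[ℝ] E) {β : Mat} (h : βᵀ = -β) :
    (plus (mat A) β)ᵀ = -plus (mat A) β := by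
  refine anti_of_bil fun X Y => ?_
  rw [bil_plus, bil_plus, bil_swap h X Y, bil_swap h (A X) (A Y)]
  ring

lemma smul_anti (a : ℝ) {β : Mat} (h : βᵀ = -β) : (a • β)ᵀ = -(a • β) := by
  rw [Matrix.transpose_smul, h, smul_neg]

lemma pf_comm (β γ : Mat) : pf β γ = pf γ β := by
  simp only [pf]
  ring

lemma pf_add_right (β γ δ : Mat) : pf β (γ + δ) = pf β γ + pf β δ := by
  simp only [pf, Matrix.add_apply]
  ring

lemma pf_smul_left (a : ℝ) (β γ : Mat) : pf (a • β) γ = a * pf β γ := by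
  simp only [pf, Matrix.smul_apply, smul_eq_mul]
  ring

lemma pf_smul_right (a : ℝ) (β γ : Mat) : pf β (a • γ) = a * pf β γ := by
  simp only [pf, Matrix.smul_apply, smul_eq_mul]
  ring

end Pool.Agent.MP_13e7a1_an.H79
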