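import Pool.Agent.MP_13e7a1_an.H79.Base

/-!
Pointwise calculus of `dd^c`.
-/

open scoped ContDiff Topology Matrix
open Set Metric Filter Pool.Agent.MP_13e7a1_an.H82

noncomputable section

namespace Pool.Agent.MP_13e7a1_an.H79

variable {J : E → E →L[ℝ] E}

lemma minus_ddc (hJ : ContDiff ℝ ∞ J) (sq : ∀ y Z, J y (J y Z) = -Z) {f : E → ℝ}
    (hf : ContDiff ℝ ∞ f) (x : E) : minus (mat (J x)) (ddc J f x) = nu J x (grad f x) := by
  refine bil_ext fun X Y => ?_
  rw [bil_minus, bil_nu hJ, bil_ddc hJ hf, bil_ddc hJ hf]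
  simp only [ev_grad, sq, map_neg]
  rw [symm2 hf x (J x X) Y, symm2 hf x (J x Y) X]
  ring

lemma plus_add_minus (M β : Mat) : β = plus M β + minus M β := by
  simp only [plus, minus]
  module

lemma fderiv_chain {f : E → ℝ} {ψ : ℝ → ℝ} (hf : ContDiff ℝ ∞ f) (hψ : ContDiff ℝ ∞ ψ) (y : E) :
    fderiv ℝ (fun y => ψ (f y)) y = deriv ψ (f y) • fderiv ℝ f y :=
  ((hψ.differentiable (by simp) (f y)).hasDerivAt.comp_hasFDerivAt y
    (hf.differentiable (by simp) y).hasFDerivAt).fderiv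

lemma fderiv2_chain {f : E → ℝ} {ψ : ℝ → ℝ} (hf : ContDiff ℝ ∞ f) (hψ : ContDiff ℝ ∞ ψ)
    (x X Y : E) :
    fderiv ℝ (fderiv ℝ (fun y => ψ (f y))) x X Y = deriv ψ (f x) * fderiv ℝ (fderiv ℝ f) x X Y
      + deriv (deriv ψ) (f x) * fderiv ℝ f x X * fderiv ℝ f x Y := by
  have hψ' : ContDiff ℝ ∞ (deriv ψ) := (contDiff_infty_iff_deriv.mp hψ).2
  have h1 : HasFDerivAt (fun y => deriv ψ (f y)) (deriv (deriv ψ) (f x) • fderiv ℝ f x) x :=
    (hψ'.differentiable (by simp) (f x)).hasDerivAt.comp_hasFDerivAt x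
      (hf.differentiable (by simp) x).hasFDerivAt
  have h2 : fderiv ℝ (fun y => ψ (f y)) = fun y => deriv ψ (f y) • fderiv ℝ f y :=
    funext (fderiv_chain hf hψ)
  rw [h2, (h1.fun_smul (diff_fderiv hf x).hasFDerivAt).fderiv]
  simp

theorem pt : SPt where
  split c f hf x := by
    rw [Ctx.T, Ctx.Nu, TT, ← minus_ddc c.smooth c.sq hf]
    exact plus_add_minus _ _
  TL c f hf x Z := by
    rw [Ctx.M, mat_mulVec]
    change bil (c.T f x) Z (c.J x Z) = _
    rw [Ctx.T, TT, bil_plus, bil_ddc c.smooth hf, bil_ddc c.smooth hf]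
    simp only [Ctx.L, Ctx.b, c.sq, map_neg, map_sub, _root_.neg_apply]
    ring
  chain c f ψ hf hψ x := by
    refine bil_ext fun X Y => ?_
    have hc : ContDiff ℝ ∞ fun y => ψ (f y) := hψ.comp hf
    simp only [Ctx.T, TT, Ctx.s, Ctx.M, bil_add, bil_smul, bil_plus, bil_ddc c.smooth hf,
      bil_ddc c.smooth hc, bil_wd, ev_cj, ev_grad, fderiv2_chain hf hψ, fderiv_chain hf hψ,
      c.sq, map_neg, _root_.smul_apply, smul_eq_mul]
    ring
  rot c x p := by
    refine bil_ext fun X Y => ?_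
    simp only [Ctx.Nu, Ctx.M, bil_tmul, bil_nu c.smooth, ev_cj, anticomm c.smooth c.sq, c.sq,
      map_neg, ev_neg, _root_.neg_apply]
    ring

end Pool.Agent.MP_13e7a1_an.H79
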